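import Pool.Agent.Y159.PepsScale

/-! Operators with product kernels of finite range and layers of gates map tensor network vectors to
tensor network vectors. -/

set_option autoImplicit false
set_option linter.unusedSectionVars false

open scoped BigOperators Matrix
open Finset Pool.Agent.TH235.PP

namespace Pool.Agent.Helper99.PE

variable {d d₁ d₂ L : ℕ} [NeZero L]

/-- An operator whose kernel is a product of functions of the windows of side `R' + 1` maps a PEPS to
a PEPS. -/
theorem kernel_peps {R' D : ℕ}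
    (w : Site L → (Fin (R' + 1) × Fin (R' + 1) → Fin d₁ × Fin d₂) → ℂ)
    {ψ : (Site L → Fin d₂) → ℂ} (hψ : IsPEPS D ψ) :
    IsPEPS (D * (d₁ * d₂) ^ ((R' + 1) ^ 2))
      (fun s : Site L → Fin d₁ =>
        ∑ t : Site L → Fin d₂, (∏ v, w v (win (fun u => (s u, t u)) v)) * ψ t) := by
  classical
  obtain ⟨A0, rfl⟩ := hψ
  set f : Site L → Fin d₁ → (Fin (R' + 1) × Fin (R' + 1) → Fin d₁ × Fin d₂) →
      Fin D → Fin D → Fin D → Fin D → ℂ := fun v a' W l r dn up =>
    if (W (0, 0)).1 = a' then w v W * A0 v (W (0, 0)).2 l r dn up else 0 with hf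
  have hcard : Fintype.card (Fin D × (Fin (R' + 1) × Fin (R' + 1) → Fin d₁ × Fin d₂)) =
      D * (d₁ * d₂) ^ ((R' + 1) ^ 2) := by
    simp [Fintype.card_prod, Fintype.card_fin, sq]
  have h1 : IsPEPS (D * (d₁ * d₂) ^ ((R' + 1) ^ 2))
      (fun s => ∑ g : Site L → Fin d₁ × Fin d₂, ∑ h0 : Site L → Fin D, ∑ v0 : Site L → Fin D,
        ∏ v : Site L, f v (s v) (win g v) (h0 (v.1 - 1, v.2)) (h0 v) (v0 (v.1, v.2 - 1))
          (v0 v)) := by
    rw [← hcard, ← peps_core f]
    exact isPEPS_contract _
  convert h1 using 1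
  funext s
  rw [Pool.Agent.TH235.PP.sum_pair]
  rw [Finset.sum_eq_single s]
  · refine Finset.sum_congr rfl fun t _ => ?_
    have h2 : ∀ (v : Site L) (l r' dn up : Fin D),
        f v (s v) (win (fun u => (s u, t u)) v) l r' dn up =
          w v (win (fun u => (s u, t u)) v) * A0 v (t v) l r' dn up := by
      intro v l r' dn up
      simp only [hf, win_zero, if_true]
    simp only [h2, Finset.prod_mul_distrib]
    unfold contract
    rw [Finset.mul_sum]
    refine Finset.sum_congr rfl fun h0 _ => ?_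
    rw [Finset.mul_sum]
  · intro s' _ hne
    obtain ⟨v, hv⟩ : ∃ v, s' v ≠ s v := by
      by_contra hcon
      push Not at hcon
      exact hne (funext hcon)
    refine Finset.sum_eq_zero fun t _ => Finset.sum_eq_zero fun h0 _ =>
      Finset.sum_eq_zero fun v0 _ => Finset.prod_eq_zero (mem_univ v) ?_
    simp only [hf, win_zero]
    rw [if_neg hv]
  · intro hh
    exact absurd (mem_univ _) hh

open Classical in
/-- One layer of a circuit: the operators (gates) `G u` act simultaneously on the boxes of side `r`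
with corners `u ∈ S`, which are pairwise disjoint. -/
def IsLayer (r : ℕ) (U : TorOp d L) : Prop :=
  ∃ (S : Finset (Site L)) (G : Site L → BoxOp d r),
    (∀ u ∈ S, ∀ u' ∈ S, u ≠ u' → ∀ x x' : Fin r × Fin r, sh u x ≠ sh u' x') ∧
    U = fun s t => (∏ u ∈ S, G u (fun x => s (sh u x)) (fun x => t (sh u x))) *
      (if ∀ v, (∀ u ∈ S, ∀ x : Fin r × Fin r, sh u x ≠ v) → s v = t v then 1 else 0)

/-- the reflected position in the window -/
def refl {R' : ℕ} (x : Fin (R' + 1) × Fin (R' + 1)) : Fin (R' + 1) × Fin (R' + 1) :=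
  (x.1.rev, x.2.rev)

/-- the opposite corner of the box -/
def far (R' : ℕ) : Site L := ((R' : ZMod L), (R' : ZMod L))

theorem win_refl {Λ : Type*} {R' : ℕ} (g : Site L → Λ) (u : Site L)
    (x : Fin (R' + 1) × Fin (R' + 1)) : win (R' := R') g (u + far R') (refl x) = g (sh u x) := by
  unfold win refl far sh
  congr 1
  have h : ∀ y : Fin (R' + 1), ((y.rev : ℕ) : ZMod L) = (R' : ZMod L) - ((y : ℕ) : ZMod L) := by
    intro y
    rw [Fin.val_rev]
    have : (y : ℕ) ≤ R' := by omega
    rw [show R' + 1 - ((y : ℕ) + 1) = R' - y by omega, Nat.cast_sub this]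
  ext
  · simp only [Prod.fst_add, h]
    ring
  · simp only [Prod.snd_add, h]
    ring

theorem layer_peps {r D : ℕ} (hr : 1 ≤ r) {U : TorOp d L} (hU : IsLayer r U)
    {ψ : (Site L → Fin d) → ℂ} (hψ : IsPEPS D ψ) :
    IsPEPS (D * (d * d) ^ (r ^ 2)) (U *ᵥ ψ) := by
  classical
  obtain ⟨R', rfl⟩ : ∃ R', r = R' + 1 := ⟨r - 1, by omega⟩
  obtain ⟨S, G, -, rfl⟩ := hU
  have h1 := kernel_peps (R' := R') (fun (v : Site L) (W : _ → Fin d × Fin d) =>
    (if v - far R' ∈ S then G (v - far R') (fun x => (W (refl x)).1) (fun x => (W (refl x)).2)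
      else 1) *
    (if (∀ u ∈ S, ∀ x : Fin (R' + 1) × Fin (R' + 1), sh u x ≠ v) then
      (if (W (0, 0)).1 = (W (0, 0)).2 then 1 else 0) else 1)) hψ
  convert h1 using 1
  funext s
  unfold Matrix.mulVec dotProduct
  refine Finset.sum_congr rfl fun t _ => ?_
  have hA : (∏ v : Site L, (if v - far R' ∈ S then
        G (v - far R') (fun x => (win (fun u => (s u, t u)) v (refl x)).1)
          (fun x => (win (fun u => (s u, t u)) v (refl x)).2) else (1 : ℂ))) =
      ∏ u ∈ S, G u (fun x => s (sh u x)) (fun x => t (sh u x)) := by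
    have h2 : ∀ v : Site L, (if v - far R' ∈ S then
        G (v - far R') (fun x => (win (fun u => (s u, t u)) v (refl x)).1)
          (fun x => (win (fun u => (s u, t u)) v (refl x)).2) else (1 : ℂ)) =
        (fun u : Site L => if u ∈ S then
          G u (fun x => s (sh u x)) (fun x => t (sh u x)) else (1 : ℂ))
          ((Equiv.subRight (far R')) v) := by
      intro v
      have h3 : ∀ x : Fin (R' + 1) × Fin (R' + 1), win (fun u => (s u, t u)) v (refl x) =
          (s (sh (v - far R') x), t (sh (v - far R') x)) := by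
        intro x
        have := win_refl (R' := R') (fun u => (s u, t u)) (v - far R') x
        rwa [sub_add_cancel] at this
      simp only [h3, Equiv.subRight_apply]
    simp only [h2]
    rw [Equiv.prod_comp (Equiv.subRight (far R')) (fun u : Site L => if u ∈ S then
          G u (fun x => s (sh u x)) (fun x => t (sh u x)) else (1 : ℂ))]
    rw [Finset.prod_ite_mem, Finset.univ_inter]
  have hB : (∏ v : Site L, (if (∀ u ∈ S, ∀ x : Fin (R' + 1) × Fin (R' + 1), sh u x ≠ v) then
      (if (win (R' := R') (fun u => (s u, t u)) v (0, 0)).1 =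
        (win (R' := R') (fun u => (s u, t u)) v (0, 0)).2 then (1 : ℂ) else 0) else 1)) =
      if ∀ v, (∀ u ∈ S, ∀ x : Fin (R' + 1) × Fin (R' + 1), sh u x ≠ v) → s v = t v
        then 1 else 0 := by
    simp only [win_zero]
    split_ifs with hc
    · refine Finset.prod_eq_one fun v _ => ?_
      split_ifs with h3 h4
      · rfl
      · exact absurd (hc v h3) h4
      · rfl
    · push Not at hc
      obtain ⟨v, hv1, hv2⟩ := hc
      apply Finset.prod_eq_zero (mem_univ v)
      rw [if_pos hv1, if_neg hv2]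
  rw [Finset.prod_mul_distrib, hA, hB]

/-- `Circuit n U`: the operator `U` is a product of layers of gates on pairwise disjoint boxes of
sides `r_1, ..., r_m ≥ 1`, where `r_1 ^ 2 + ... + r_m ^ 2 = n`. -/
inductive Circuit {d L : ℕ} [NeZero L] : ℕ → TorOp d L → Prop
  | one : Circuit 0 1
  | mul {r n : ℕ} {U V : TorOp d L} (hr : 1 ≤ r) (hU : IsLayer r U) (hV : Circuit n V) :
      Circuit (r ^ 2 + n) (U * V)

theorem circuit_peps {n D : ℕ} {U : TorOp d L} (hU : Circuit n U)
    {ψ : (Site L → Fin d) → ℂ} (hψ : IsPEPS D ψ) :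
    IsPEPS (D * (d * d) ^ n) (U *ᵥ ψ) := by
  induction hU with
  | one => simpa using hψ
  | @mul r n U V hr hU hV ih =>
    rw [← Matrix.mulVec_mulVec]
    have := layer_peps hr hU ih
    rwa [mul_assoc, ← pow_add, add_comm n] at this

end Pool.Agent.Helper99.PE
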