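import Pool.Agent.Helper99.PE.Stack

/-!
The conclusion of the open problem for a family and for its stacks: common lemmas.
-/

set_option autoImplicit false
set_option linter.unusedSectionVars false

open scoped BigOperators Matrix
open Finset Pool.Agent.TH235.PP Pool.Agent.Results.MP_953b23_mp.OverlapBoosting

namespace Pool.Agent.Helper99.PE

/-- The tensor product (stack) of two vectors on the `L × L` torus: a configuration `s` of the stack,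
with local dimension `d * a`, is a pair of configurations with local dimensions `d` and `a`. -/
def stack {L d a : ℕ} (ψ : (Site L → Fin d) → ℂ) (φ : (Site L → Fin a) → ℂ) :
    (Site L → Fin (d * a)) → ℂ :=
  fun s => ψ (fun v => (finProdFinEquiv.symm (s v)).1) * φ (fun v => (finProdFinEquiv.symm (s v)).2)

/-- The conclusion of the open problem for the vectors `Ψ`, with the exponent `k`: for every `c > 0`
there is `C` such that for all large `L` some PEPS of bond dimension at most `exp (C (log L)^k)` is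
within `L ^ (-c)` of `Ψ L`. -/
def Good {d : ℕ} (Ψ : ∀ L : ℕ, (Site L → Fin d) → ℂ) (k : ℕ) : Prop :=
  ∀ c : ℝ, 0 < c → ∃ C : ℝ, Approx Ψ k C fun L => (L : ℝ) ^ (-c)

/-- For all large `L` the vector `Θ L` has overlap at least `exp (-C (log L)^k)` with the
normalisation of `U φ` for some PEPS `φ` of bond dimension at most `exp (C (log L)^k)` and some circuit
`U` of cost at most `exp (C (log L)^k)`. -/
def CircuitOverlap {b : ℕ} (Θ : ∀ L : ℕ, (Site L → Fin b) → ℂ) (k : ℕ) (C : ℝ) : Prop :=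
  ∃ L₀ : ℕ, ∀ (L : ℕ) [NeZero L], L₀ ≤ L →
    ∃ (D n : ℕ) (φ : (Site L → Fin b) → ℂ) (U : TorOp b L),
      (D : ℝ) ≤ Real.exp (C * Real.log L ^ k) ∧ IsPEPS D φ ∧
      Circuit n U ∧ (b : ℝ) ^ n ≤ Real.exp (C * Real.log L ^ k) ∧ 0 < normSq (U *ᵥ φ) ∧
      Real.exp (-(C * Real.log L ^ k)) * Real.sqrt (normSq (U *ᵥ φ)) ≤ ‖ip (Θ L) (U *ᵥ φ)‖


theorem stack_eq {L d a : ℕ} (ψ : (Site L → Fin d) → ℂ) (φ : (Site L → Fin a) → ℂ) :
    stack ψ φ = stackE finProdFinEquiv ψ φ := rfl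

/-- the slices of a vector of a circuit give a mixed state with good fidelity -/
theorem mixed {d : ℕ} {Ψ : ∀ L : ℕ, (Site L → Fin d) → ℂ} {k : ℕ} {C : ℝ}
    (hS : ∃ L₀ : ℕ, ∀ (L : ℕ) [NeZero L], L₀ ≤ L →
      ∃ (a b : ℕ) (e : Fin d × Fin a ≃ Fin b) (Ψ' : (Site L → Fin a) → ℂ) (D n : ℕ)
        (φ : (Site L → Fin b) → ℂ) (U : TorOp b L),
        normSq Ψ' = 1 ∧ (D : ℝ) ≤ Real.exp (C * Real.log L ^ k) ∧ IsPEPS D φ ∧
        Circuit n U ∧ (b : ℝ) ^ n ≤ Real.exp (C * Real.log L ^ k) ∧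
        0 < normSq (U *ᵥ φ) ∧
        Real.exp (-(C * Real.log L ^ k)) * Real.sqrt (normSq (U *ᵥ φ)) ≤
          ‖ip (stackE e (Ψ L) Ψ') (U *ᵥ φ)‖) :
    ∃ C' : ℝ, MixedOverlap Ψ k C' := by
  obtain ⟨L₀, hL₀⟩ := hS
  refine ⟨3 * |C|, max 3 L₀, ?_⟩
  intro L _ hL
  have hL3 : 3 ≤ L := (le_max_left _ _).trans hL
  obtain ⟨a, b, e, Ψ', D, n, φ, U, h1, h2, h3, h4, h5, h6, h7⟩ :=
    hL₀ L ((le_max_right _ _).trans hL)
  have hl : 0 ≤ Real.log L ^ k := by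
    have := log_ge_one hL3
    positivity
  generalize Real.log L ^ k = l at hl h2 h5 h7 ⊢
  have hC : C * l ≤ |C| * l := mul_le_mul_of_nonneg_right (le_abs_self _) hl
  have hC0 : 0 ≤ |C| * l := by positivity
  rw [sqrt_normSq] at h7
  have hm := mixed_of e (Real.exp_pos (-(C * l))).le h1 h7
  refine ⟨a, D * (b * b) ^ n, slice e (U *ᵥ φ), ?_, purified_slice e (circuit_peps h4 h3), ?_, ?_⟩
  · push_cast
    rw [mul_pow]
    have h8 : (D : ℝ) * ((b : ℝ) ^ n * (b : ℝ) ^ n) ≤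
        Real.exp (C * l) * (Real.exp (C * l) * Real.exp (C * l)) := by
      refine mul_le_mul h2 (mul_le_mul h5 h5 (by positivity) (Real.exp_pos _).le)
        (by positivity) (Real.exp_pos _).le
    refine h8.trans ?_
    rw [← Real.exp_add, ← Real.exp_add]
    apply Real.exp_le_exp.2
    linarith
  · rw [normSq_slice]
    exact h6
  · refine le_trans (mul_le_mul_of_nonneg_right ?_ ?_) hm
    · rw [← Real.exp_nat_mul]
      apply Real.exp_le_exp.2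
      push_cast
      linarith
    · rw [normSq_slice]
      exact h6.le

variable {d R : ℕ} {h : BoxOp d R} {Δ : ℝ} {Ψ : ∀ L : ℕ, (Site L → Fin d) → ℂ}

theorem mixed_all (hF : GappedFamily h Δ Ψ) {k : ℕ} (hk : 1 ≤ k)
    (hM : ∃ C : ℝ, MixedOverlap Ψ k C) :
    Good Ψ k ∧ ∀ s : ℝ, 0 < s → ∃ C : ℝ, Approx Ψ k C fun L => Real.exp (-(s * Real.log L ^ k)) := by
  have h := Pool.Agent.Y159.PepsScale.equivK hF k hk
  refine ⟨(h.out 4 0).1 hM, (h.out 4 2).1 hM⟩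

/-- closeness gives a good overlap with a PEPS -/
theorem good_to_circuit {b : ℕ} {Θ : ∀ L : ℕ, (Site L → Fin b) → ℂ} {k : ℕ}
    (hn : ∃ L₀ : ℕ, ∀ (L : ℕ) [NeZero L], L₀ ≤ L → normSq (Θ L) = 1) (hG : Good Θ k) :
    ∃ C : ℝ, CircuitOverlap Θ k C := by
  obtain ⟨L₁, hL₁⟩ := hn
  obtain ⟨C, L₂, hL₂⟩ := hG 1 one_pos
  obtain ⟨L₃, hL₃⟩ := rpow_small 1 one_pos (1 / 4) (by norm_num)
  refine ⟨|C| + 1, max 3 (max L₁ (max L₂ L₃)), ?_⟩
  intro L _ hL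
  simp only [max_le_iff] at hL
  obtain ⟨h3, ha, hb, hc'⟩ := hL
  obtain ⟨D, ψ, hD, hψ, herr⟩ := hL₂ L hb
  rw [sqrt_normSq] at herr
  obtain ⟨n1, n2, n3⟩ := near (Θ L) ψ (hL₁ L ha) (herr.trans (hL₃ L hc'))
  have hl : 1 ≤ Real.log L ^ k := one_le_pow₀ (log_ge_one h3)
  generalize Real.log L ^ k = l at hl hD ⊢
  have hC : C * l ≤ |C| * l := mul_le_mul_of_nonneg_right (le_abs_self _) (by linarith)
  have hC0 : 0 ≤ |C| * l := by positivity
  refine ⟨D, 0, ψ, 1, hD.trans (Real.exp_le_exp.2 (by linarith)), hψ, Circuit.one, ?_, ?_, ?_⟩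
  · rw [pow_zero]
    exact Real.one_le_exp (by linarith)
  · rw [Matrix.one_mulVec, ← nr_sq]
    have : 0 < nr ψ := by linarith
    positivity
  · rw [Matrix.one_mulVec, sqrt_normSq]
    have h6 : Real.exp (-((|C| + 1) * l)) ≤ Real.exp (-1) := by
      apply Real.exp_le_exp.2
      linarith
    have h7 := h6.trans exp_neg_one_lt
    calc Real.exp (-((|C| + 1) * l)) * nr ψ ≤ 2 / 5 * (5 / 4) :=
          mul_le_mul h7 n2 (nr_nonneg _) (by norm_num)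
      _ ≤ ‖ip (Θ L) ψ‖ := by linarith

/-- the product of two approximable families -/
theorem good_stack {a : ℕ} {Ψ' : ∀ L : ℕ, (Site L → Fin a) → ℂ} {k : ℕ}
    (hn : ∃ L₀ : ℕ, ∀ (L : ℕ) [NeZero L], L₀ ≤ L → normSq (Ψ L) = 1)
    (hn' : ∃ L₀ : ℕ, ∀ (L : ℕ) [NeZero L], L₀ ≤ L → normSq (Ψ' L) = 1)
    (hG : Good Ψ k) (hG' : Good Ψ' k) : Good (fun L => stack (Ψ L) (Ψ' L)) k := by
  intro c hc
  obtain ⟨L₁, hL₁⟩ := hn
  obtain ⟨L₂, hL₂⟩ := hn'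
  obtain ⟨C, L₃, hL₃⟩ := hG (c + 2) (by linarith)
  obtain ⟨C', L₄, hL₄⟩ := hG' (c + 2) (by linarith)
  refine ⟨C + C', max 3 (max (max L₁ L₂) (max L₃ L₄)), ?_⟩
  intro L _ hL
  simp only [max_le_iff] at hL
  obtain ⟨h3, ⟨ha, hb⟩, hc', hd⟩ := hL
  obtain ⟨D, ψ, hD, hψ, herr⟩ := hL₃ L hc'
  obtain ⟨D', ψ', hD', hψ', herr'⟩ := hL₄ L hd
  rw [sqrt_normSq] at herr herr'
  refine ⟨D * D', stack ψ ψ', ?_, peps_stack _ hψ hψ', ?_⟩
  · push_cast
    rw [add_mul, Real.exp_add]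
    exact mul_le_mul hD hD' (Nat.cast_nonneg _) (Real.exp_pos _).le
  · rw [sqrt_normSq]
    have h8 := stack_near finProdFinEquiv (hL₁ L ha) (hL₂ L hb) herr herr'
    refine h8.trans ?_
    have hL0 : (3 : ℝ) ≤ L := by exact_mod_cast h3
    have hLp : (0 : ℝ) < L := by linarith
    have e1 : (L : ℝ) ^ (-(c + 2)) = (L : ℝ) ^ (-c) * ((L : ℝ) ^ 2)⁻¹ := by
      rw [neg_add, Real.rpow_add hLp, Real.rpow_neg hLp.le 2, Real.rpow_two]
    have e2 : 0 < (L : ℝ) ^ (-c) := Real.rpow_pos_of_pos hLp _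
    have e3 : (L : ℝ) ^ (-c) ≤ 1 := Real.rpow_le_one_of_one_le_of_nonpos (by linarith) (by linarith)
    have e4 : ((L : ℝ) ^ 2)⁻¹ ≤ 1 / 9 := by
      rw [one_div]
      exact inv_anti₀ (by norm_num) (by nlinarith)
    have e5 : 0 < ((L : ℝ) ^ 2)⁻¹ := by positivity
    beta_reduce
    rw [e1]
    generalize (L : ℝ) ^ (-c) = x at e2 e3 ⊢
    generalize ((L : ℝ) ^ 2)⁻¹ = y at e4 e5 ⊢
    nlinarith [mul_pos e2 e5, mul_le_mul_of_nonneg_left e4 e2.le]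

/-- a factor of a family with a good overlap is good -/
theorem factor_good {b a : ℕ} {Θ : ∀ L : ℕ, (Site L → Fin b) → ℂ} (e : Fin d × Fin a ≃ Fin b)
    {Ψ' : ∀ L : ℕ, (Site L → Fin a) → ℂ} {k : ℕ} (hk : 1 ≤ k)
    (hF : GappedFamily h Δ Ψ)
    (hn' : ∃ L₀ : ℕ, ∀ (L : ℕ) [NeZero L], L₀ ≤ L → normSq (Ψ' L) = 1)
    (hΘ : ∀ L, Θ L = stackE e (Ψ L) (Ψ' L))
    (hS : ∃ C : ℝ, CircuitOverlap Θ k C) : Good Ψ k := by
  obtain ⟨C, L₀, hL₀⟩ := hS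
  obtain ⟨L₁, hL₁⟩ := hn'
  refine (mixed_all hF hk (mixed (C := C) ⟨max L₀ L₁, fun L _ hL => ?_⟩)).1
  obtain ⟨D, n, φ, U, hh⟩ := hL₀ L ((le_max_left _ _).trans hL)
  rw [hΘ L] at hh
  exact ⟨a, b, e, Ψ' L, D, n, φ, U, hL₁ L ((le_max_right _ _).trans hL), hh⟩

theorem norm_family (hF : GappedFamily h Δ Ψ) :
    ∃ L₀ : ℕ, ∀ (L : ℕ) [NeZero L], L₀ ≤ L → normSq (Ψ L) = 1 := by
  obtain ⟨L₀, hL₀⟩ := hF.ground
  exact ⟨L₀, fun L _ hL => (hL₀ L hL).1⟩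

end Pool.Agent.Helper99.PE
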