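import Pool.Agent.Helper99.PE.Circ

/-! Stacking of vectors on the torus. -/

set_option autoImplicit false
set_option linter.unusedSectionVars false

open scoped BigOperators Matrix
open Finset Pool.Agent.TH235.PP Pool.Agent.Results.MP_953b23_mp.OverlapBoosting

namespace Pool.Agent.Helper99.PE

/-- The tensor product of the vectors `ψ` and `φ`; `e` identifies the local basis of the stack. -/
def stackE {L d a b : ℕ} (e : Fin d × Fin a ≃ Fin b) (ψ : (Site L → Fin d) → ℂ)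
    (φ : (Site L → Fin a) → ℂ) : (Site L → Fin b) → ℂ :=
  fun s => ψ (fun v => (e.symm (s v)).1) * φ (fun v => (e.symm (s v)).2)

/-- the component of a vector on the stack in which the second factors are in the basis state `t` -/
def slice {L d a b : ℕ} (e : Fin d × Fin a ≃ Fin b) (χ : (Site L → Fin b) → ℂ)
    (t : Site L → Fin a) : (Site L → Fin d) → ℂ :=
  fun s => χ (fun v => e (s v, t v))

section

variable {L d a b : ℕ} [NeZero L] (e : Fin d × Fin a ≃ Fin b)

theorem sum_stack {M : Type*} [AddCommMonoid M] (F : (Site L → Fin b) → M) :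
    ∑ s, F s = ∑ t : Site L → Fin a, ∑ s : Site L → Fin d, F (fun v => e (s v, t v)) := by
  rw [Finset.sum_comm, ← Fintype.sum_prod_type']
  symm
  refine Fintype.sum_equiv ((Equiv.arrowProdEquivProdArrow (Site L) (fun _ => Fin d)
    (fun _ => Fin a)).symm.trans (Equiv.arrowCongr (Equiv.refl _) e)) _ _ ?_
  intro p
  rfl

theorem normSq_slice (χ : (Site L → Fin b) → ℂ) : ∑ t, normSq (slice e χ t) = normSq χ := by
  unfold normSq
  rw [sum_stack e]
  rfl

theorem ip_stack (ψ : (Site L → Fin d) → ℂ) (φ : (Site L → Fin a) → ℂ)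
    (χ : (Site L → Fin b) → ℂ) :
    ip (stackE e ψ φ) χ = ip φ (fun t => ip ψ (slice e χ t)) := by
  unfold ip
  rw [sum_stack e]
  refine Finset.sum_congr rfl fun t _ => ?_
  rw [Finset.mul_sum]
  refine Finset.sum_congr rfl fun s _ => ?_
  unfold stackE slice
  simp only [Equiv.symm_apply_apply, map_mul]
  ring

theorem normSq_stack (ψ : (Site L → Fin d) → ℂ) (φ : (Site L → Fin a) → ℂ) :
    normSq (stackE e ψ φ) = normSq ψ * normSq φ := by
  unfold normSq
  rw [sum_stack e, Finset.mul_sum]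
  refine Finset.sum_congr rfl fun t _ => ?_
  rw [Finset.sum_mul]
  refine Finset.sum_congr rfl fun s _ => ?_
  unfold stackE
  simp only [Equiv.symm_apply_apply, norm_mul, mul_pow]

theorem nr_stack (ψ : (Site L → Fin d) → ℂ) (φ : (Site L → Fin a) → ℂ) :
    nr (stackE e ψ φ) = nr ψ * nr φ := by
  have h := normSq_stack e ψ φ
  rw [← nr_sq, ← nr_sq, ← nr_sq, ← mul_pow] at h
  exact (pow_left_inj₀ (nr_nonneg _) (mul_nonneg (nr_nonneg _) (nr_nonneg _)) two_ne_zero).1 h

theorem stack_sub_left (ψ ψ' : (Site L → Fin d) → ℂ) (φ : (Site L → Fin a) → ℂ) :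
    stackE e (ψ - ψ') φ = stackE e ψ φ - stackE e ψ' φ := by
  funext s
  simp only [stackE, Pi.sub_apply, sub_mul]

theorem stack_sub_right (ψ : (Site L → Fin d) → ℂ) (φ φ' : (Site L → Fin a) → ℂ) :
    stackE e ψ (φ - φ') = stackE e ψ φ - stackE e ψ φ' := by
  funext s
  simp only [stackE, Pi.sub_apply, mul_sub]

theorem stack_near {ψ Ψ : (Site L → Fin d) → ℂ} {φ Φ : (Site L → Fin a) → ℂ} {x y : ℝ}
    (hΨ : normSq Ψ = 1) (hΦ : normSq Φ = 1) (h1 : nr (ψ - Ψ) ≤ x) (h2 : nr (φ - Φ) ≤ y) :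
    nr (stackE e ψ φ - stackE e Ψ Φ) ≤ x * (1 + y) + y := by
  have e1 : stackE e ψ φ - stackE e Ψ Φ = stackE e (ψ - Ψ) φ + stackE e Ψ (φ - Φ) := by
    rw [stack_sub_left, stack_sub_right]
    abel
  have n1 : nr Ψ = 1 := nr_one Ψ hΨ
  have n2 : nr Φ = 1 := nr_one Φ hΦ
  have h3 : nr φ ≤ 1 + y := by
    have := nr_add (φ - Φ) Φ
    rw [sub_add_cancel, n2] at this
    linarith
  have hx : 0 ≤ x := (nr_nonneg _).trans h1
  rw [e1]
  refine (nr_add _ _).trans ?_
  rw [nr_stack, nr_stack, n1, one_mul]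
  exact add_le_add (mul_le_mul h1 h3 (nr_nonneg _) hx) h2

/-- If a vector on the stack has overlap `η` with `Ψ ⊗ Ψ'` then the mixed state of its slices has
fidelity at least `η ^ 2` with `Ψ`. -/
theorem mixed_of {Ψ : (Site L → Fin d) → ℂ} {Ψ' : (Site L → Fin a) → ℂ}
    {χ : (Site L → Fin b) → ℂ} {η : ℝ} (hη : 0 ≤ η) (hΨ' : normSq Ψ' = 1)
    (h : η * nr χ ≤ ‖ip (stackE e Ψ Ψ') χ‖) :
    η ^ 2 * ∑ t, normSq (slice e χ t) ≤ ∑ t, ‖ip Ψ (slice e χ t)‖ ^ 2 := by
  have n1 : nr Ψ' = 1 := nr_one Ψ' hΨ'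
  rw [ip_stack] at h
  have h2 := h.trans (ip_le Ψ' (fun t => ip Ψ (slice e χ t)))
  rw [n1, one_mul] at h2
  have h3 := pow_le_pow_left₀ (mul_nonneg hη (nr_nonneg _)) h2 2
  rw [nr_sq, mul_pow, nr_sq] at h3
  rw [normSq_slice]
  exact h3

theorem purified_slice {D : ℕ} {χ : (Site L → Fin b) → ℂ} (h : IsPEPS D χ) :
    IsPurified D (slice e χ) := by
  obtain ⟨A, rfl⟩ := h
  exact ⟨fun x i j => A x (e (i, j)), fun t => rfl⟩

theorem peps_stack {D D' : ℕ} {ψ : (Site L → Fin d) → ℂ} {φ : (Site L → Fin a) → ℂ}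
    (h : IsPEPS D ψ) (h' : IsPEPS D' φ) : IsPEPS (D * D') (stackE e ψ φ) := by
  obtain ⟨A, rfl⟩ := h
  obtain ⟨B, rfl⟩ := h'
  have h1 := isPEPS_contract (fun (x : Site L) (s : Fin b)
    (l r dn up : Fin D × Fin D') =>
      A x (e.symm s).1 l.1 r.1 dn.1 up.1 * B x (e.symm s).2 l.2 r.2 dn.2 up.2)
  have hc : Fintype.card (Fin D × Fin D') = D * D' := by simp
  rw [hc] at h1
  convert h1 using 1
  funext s
  unfold stackE contract
  simp only [Finset.prod_mul_distrib]
  rw [Pool.Agent.TH235.PP.sum_pair]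
  simp only [Pool.Agent.TH235.PP.sum_pair]
  rw [Finset.sum_mul]
  refine Finset.sum_congr rfl fun h0 _ => ?_
  rw [Finset.mul_sum]
  refine Finset.sum_congr rfl fun h1 _ => ?_
  rw [Finset.sum_mul]
  refine Finset.sum_congr rfl fun v0 _ => ?_
  rw [Finset.mul_sum]

end

/-- the vector of a product state -/
def prodVec {L d : ℕ} [NeZero L] (p : Site L → Fin d → ℂ) : (Site L → Fin d) → ℂ :=
  fun s => ∏ v, p v (s v)

theorem peps_prod {L d : ℕ} [NeZero L] (p : Site L → Fin d → ℂ) : IsPEPS 1 (prodVec p) := by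
  refine ⟨fun x i _ _ _ _ => p x i, ?_⟩
  funext s
  unfold prodVec contract
  simp

end Pool.Agent.Helper99.PE
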